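import Mathlib

/-!
# MP_e482b1_nt: the Bhargava factorial of the set of twin primes

The prime `23` is not a twin prime. So the set `P` of all primes meets all residue classes modulo
`23`, while `P2` meets at most `22` of them. Hence `23` divides `22!_{P2}` but not `22!_P`, and the
ratio `22!_{P2} / 22!_P` is not equal to `2 w_2(22) = 4`.
-/

set_option autoImplicit false

open Finset

namespace Pool.Agent.Results.MP_e482b1_nt.FailsAt22

/-- The set of all primes. -/
def P : Set ℤ := {z | ∃ p : ℕ, z = p ∧ p.Prime}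

/-- The twin primes: primes `p` with `p - 2` or `p + 2` prime. -/
def P2 : Set ℤ := {z | ∃ p : ℕ, z = p ∧ p.Prime ∧ ((p - 2).Prime ∨ (p + 2).Prime)}

/-- `a 0, …, a n` is an initial segment of a `p`-ordering of `X`: each `a k` is in `X`, and the power
of `p` which divides `∏_{i < k} (x - a i)` is as small as possible (over all `x` in `X`) at
`x = a k`. (`emultiplicity p m` is the exponent of `p` in `m`, and `⊤` for `m = 0`.) -/
def POrd (X : Set ℤ) (p n : ℕ) (a : ℕ → ℤ) : Prop :=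
  ∀ k ≤ n, a k ∈ X ∧ ∀ x ∈ X,
    emultiplicity (p : ℤ) (∏ i ∈ range k, (a k - a i)) ≤
      emultiplicity (p : ℤ) (∏ i ∈ range k, (x - a i))

/-- `f` is the Bhargava factorial `n!_X`: `f` is a positive integer, and for each prime `p` the
exponent of `p` in `f` is that of `∏_{i < n} (a n - a i)`, for a `p`-ordering `a` of `X`. -/
def IsFac (X : Set ℤ) (n f : ℕ) : Prop :=
  f ≠ 0 ∧ ∀ p : ℕ, p.Prime → ∃ a : ℕ → ℤ, POrd X p n a ∧
    emultiplicity (p : ℤ) (f : ℤ) = emultiplicity (p : ℤ) (∏ i ∈ range n, (a n - a i))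

lemma exists_min (X : Set ℤ) (hX : X.Nonempty) (f : ℤ → ℕ∞) : ∃ x ∈ X, ∀ y ∈ X, f x ≤ f y := by
  obtain ⟨m, ⟨x, hx, rfl⟩, hm⟩ :=
    (wellFounded_lt : WellFounded (α := ℕ∞) (· < ·)).has_min (f '' X) (hX.image f)
  exact ⟨x, hx, fun y hy => not_lt.1 (hm (f y) ⟨y, hy, rfl⟩)⟩

lemma exists_pord (X : Set ℤ) (hX : X.Nonempty) (p n : ℕ) : ∃ a, POrd X p n a := by
  induction n with
  | zero =>
    obtain ⟨x, hx⟩ := hX
    refine ⟨fun _ => x, fun k hk => ?_⟩
    obtain rfl : k = 0 := by omega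
    exact ⟨hx, fun y _ => by simp⟩
  | succ n ih =>
    obtain ⟨a, ha⟩ := ih
    obtain ⟨x, hx, hmin⟩ := exists_min X hX
      fun x => emultiplicity (p : ℤ) (∏ i ∈ range (n + 1), (x - a i))
    refine ⟨Function.update a (n + 1) x, fun k hk => ?_⟩
    have hu : ∀ (y : ℤ) (j : ℕ), j ≤ n + 1 →
        ∏ i ∈ range j, (y - Function.update a (n + 1) x i) = ∏ i ∈ range j, (y - a i) := by
      intro y j hj
      refine Finset.prod_congr rfl fun i hi => ?_
      rw [Function.update_of_ne (by have := Finset.mem_range.1 hi; omega)]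
    rcases Nat.lt_or_ge k (n + 1) with hlt | hge
    · have hk' := ha k (by omega)
      rw [Function.update_of_ne (by omega)]
      refine ⟨hk'.1, fun y hy => ?_⟩
      rw [hu _ _ hk, hu _ _ hk]
      exact hk'.2 y hy
    · obtain rfl : k = n + 1 := by omega
      rw [Function.update_self]
      refine ⟨hx, fun y hy => ?_⟩
      rw [hu _ _ le_rfl, hu _ _ le_rfl]
      exact hmin y hy

/-- If `X` has more than `n` elements which are pairwise incongruent modulo the prime `p`, then `p`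
does not divide the product of a `p`-ordering. -/
lemma not_dvd_of_inj (X : Set ℤ) (T : Finset ℤ) (hT : ∀ t ∈ T, t ∈ X) (p n : ℕ) (hp : p.Prime)
    (hc : n < T.card) (hinj : ∀ s ∈ T, ∀ t ∈ T, (p : ℤ) ∣ s - t → s = t)
    (a : ℕ → ℤ) (ha : POrd X p n a) :
    ¬ (p : ℤ) ∣ ∏ i ∈ range n, (a n - a i) := by
  have hpp : Prime (p : ℤ) := Nat.prime_iff_prime_int.1 hp
  have h1 : (T.image fun t : ℤ => (t : ZMod p)).card = T.card := by
    refine Finset.card_image_of_injOn fun s hs t ht hst => ?_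
    refine hinj s hs t ht ?_
    have := (ZMod.intCast_eq_intCast_iff_dvd_sub t s p).1 (by simpa using hst.symm)
    simpa using this
  have h2 : ((range n).image fun i => (a i : ZMod p)).card <
      (T.image fun t : ℤ => (t : ZMod p)).card := by
    rw [h1]
    exact lt_of_le_of_lt (le_trans Finset.card_image_le (by simp)) hc
  obtain ⟨c, hc1, hc2⟩ := Finset.exists_mem_notMem_of_card_lt_card h2
  obtain ⟨x, hx, rfl⟩ := Finset.mem_image.1 hc1
  have h3 : ¬ (p : ℤ) ∣ ∏ i ∈ range n, (x - a i) := by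
    intro hd
    obtain ⟨i, hi, hdi⟩ := (hpp.dvd_finsetProd_iff _).1 hd
    refine hc2 (Finset.mem_image.2 ⟨i, hi, ?_⟩)
    exact (ZMod.intCast_eq_intCast_iff_dvd_sub (a i) x p).2 hdi
  have h4 := (ha n le_rfl).2 x (hT x hx)
  rw [emultiplicity_eq_zero.2 h3] at h4
  exact emultiplicity_eq_zero.1 (le_antisymm h4 bot_le)

/-- The factorial `n!_X` exists when `X` has more than `n` elements. -/
lemma exists_fac (X : Set ℤ) (T : Finset ℤ) (hT : ∀ t ∈ T, t ∈ X) (n B : ℕ)
    (hc : n < T.card) (hB : ∀ t ∈ T, 0 ≤ t ∧ t < (B : ℤ)) : ∃ f, IsFac X n f := by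
  have hne : T.Nonempty := Finset.card_pos.1 (by omega)
  have hX : X.Nonempty := ⟨hne.choose, hT _ hne.choose_spec⟩
  choose A hA using fun p => exists_pord X hX p n
  have hfin : ∀ p : ℕ, p.Prime → ∏ i ∈ range n, (A p n - A p i) ≠ 0 := by
    intro p hp h0
    have h2 : ((range n).image fun i => A p i).card < T.card :=
      lt_of_le_of_lt (le_trans Finset.card_image_le (by simp)) hc
    obtain ⟨x, hx1, hx2⟩ := Finset.exists_mem_notMem_of_card_lt_card h2
    have h3 : ∏ i ∈ range n, (x - A p i) ≠ 0 := by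
      rw [Finset.prod_ne_zero_iff]
      intro i hi h
      exact hx2 (Finset.mem_image.2 ⟨i, hi, by linarith⟩)
    have h4 := (hA p n le_rfl).2 x (hT x hx1)
    rw [h0, emultiplicity_zero] at h4
    have h5 := top_le_iff.1 h4
    have h6 : FiniteMultiplicity (p : ℤ) (∏ i ∈ range n, (x - A p i)) := by
      rw [Int.finiteMultiplicity_iff]
      refine ⟨?_, h3⟩
      simpa using hp.one_lt.ne'
    exact (finiteMultiplicity_iff_emultiplicity_ne_top.1 h6) h5
  let e : ℕ → ℕ := fun p =>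
    if p.Prime ∧ p < B then padicValInt p (∏ i ∈ range n, (A p n - A p i)) else 0
  let g : ℕ →₀ ℕ := Finsupp.onFinset (range B) e (by
    intro p hp
    rw [Finset.mem_range]
    by_contra hlt
    exact hp (if_neg fun h => hlt h.2))
  have hg : ∀ p ∈ g.support, p.Prime := by
    intro p hp
    by_contra hlt
    exact (Finsupp.mem_support_iff.1 hp) (if_neg fun h => hlt h.1)
  have hf := Nat.prod_pow_factorization_eq_self hg
  refine ⟨g.prod (· ^ ·), ?_, fun p hp => ⟨A p, hA p, ?_⟩⟩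
  · rw [Finsupp.prod, Finset.prod_ne_zero_iff]
    intro p hp
    exact pow_ne_zero _ (hg p hp).ne_zero
  · haveI : Fact p.Prime := ⟨hp⟩
    have hne0 : g.prod (· ^ ·) ≠ 0 := by
      rw [Finsupp.prod, Finset.prod_ne_zero_iff]
      intro q hq
      exact pow_ne_zero _ (hg q hq).ne_zero
    have h1 : padicValNat p (g.prod (· ^ ·)) = g p := by
      rw [← Nat.factorization_def _ hp, hf]
    rw [Int.natCast_emultiplicity, ← padicValNat_eq_emultiplicity hne0, h1]
    rcases Nat.lt_or_ge p B with hlt | hge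
    · have h2 : g p = padicValInt p (∏ i ∈ range n, (A p n - A p i)) := if_pos ⟨hp, hlt⟩
      rw [h2, padicValInt, padicValNat_eq_emultiplicity (Int.natAbs_ne_zero.2 (hfin p hp))]
      exact (Int.emultiplicity_natAbs p _)
    · have h2 : g p = 0 := if_neg fun h => by omega
      rw [h2]
      refine (emultiplicity_eq_zero.2 (not_dvd_of_inj X T hT p n hp hc ?_ (A p) (hA p))).symm
      intro s hs t ht hd
      have h3 := Int.eq_zero_of_abs_lt_dvd hd (by
        have := hB s hs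
        have := hB t ht
        rw [abs_lt]
        constructor <;> omega)
      omega

/-- No element of `P2` is divisible by `23`. -/
lemma not_dvd_P2' (z : ℤ) (hz : z ∈ P2) : ¬ (23 : ℤ) ∣ z := by
  obtain ⟨q, hq, hp, h⟩ := hz
  intro hd
  rw [hq] at hd
  have h1 := Int.natCast_dvd_natCast.1 (by simpa using hd : ((23 : ℕ) : ℤ) ∣ (q : ℤ))
  have h2 := (Nat.prime_dvd_prime_iff_eq (by norm_num) hp).1 h1
  rw [← h2] at h
  norm_num at h

lemma dvd_P2 (f : ℕ) (hf : IsFac P2 22 f) : 23 ∣ f := by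
  by_contra hnd
  obtain ⟨-, hf⟩ := hf
  obtain ⟨a, ha, he⟩ := hf 23 (by norm_num)
  have hpp : Prime ((23 : ℕ) : ℤ) := Nat.prime_iff_prime_int.1 (by norm_num)
  have h1 : emultiplicity ((23 : ℕ) : ℤ) (f : ℤ) = 0 := by
    rw [emultiplicity_eq_zero]
    intro h
    exact hnd (Int.natCast_dvd_natCast.1 h)
  rw [h1] at he
  have h2 := emultiplicity_eq_zero.1 he.symm
  have h3 : ∀ i < 22, ¬ ((23 : ℕ) : ℤ) ∣ a 22 - a i := by
    intro i hi hd
    exact h2 (hd.trans (Finset.dvd_prod_of_mem (fun i => a 22 - a i) (Finset.mem_range.2 hi)))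
  have h4 : ∀ k ≤ 22, ∀ i < k, ¬ ((23 : ℕ) : ℤ) ∣ a k - a i := by
    intro k hk i hi hd
    have h5 := (ha k hk).2 (a 22) (ha 22 le_rfl).1
    have h6 : emultiplicity ((23 : ℕ) : ℤ) (∏ i ∈ range k, (a 22 - a i)) = 0 := by
      rw [emultiplicity_eq_zero]
      intro hd
      obtain ⟨j, hj, hdj⟩ := (hpp.dvd_finsetProd_iff _).1 hd
      exact h3 j (by have := Finset.mem_range.1 hj; omega) hdj
    rw [h6] at h5
    have h7 := emultiplicity_eq_zero.1 (le_antisymm h5 bot_le)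
    exact h7 (hd.trans (Finset.dvd_prod_of_mem (fun i => a k - a i) (Finset.mem_range.2 hi)))
  have hinj : Function.Injective fun k : Fin 23 => ((a k : ℤ) : ZMod 23) := by
    intro k l hkl
    by_contra hne
    rcases lt_or_gt_of_ne (Fin.val_ne_of_ne hne) with hlt | hlt
    · exact h4 l (by omega) k hlt ((ZMod.intCast_eq_intCast_iff_dvd_sub (a k) (a l) 23).1 hkl)
    · exact h4 k (by omega) l hlt ((ZMod.intCast_eq_intCast_iff_dvd_sub (a l) (a k) 23).1 hkl.symm)
  have hsurj := ((Fintype.bijective_iff_injective_and_card _).2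
    ⟨hinj, by simp [ZMod.card]⟩).2
  obtain ⟨k, hk⟩ := hsurj 0
  refine not_dvd_P2' (a k) (ha k (by omega)).1 ?_
  exact (ZMod.intCast_zmod_eq_zero_iff_dvd (a k) 23).1 hk

/-- Primes in the `23` residue classes modulo `23`. -/
def prs : List ℕ := [23, 47, 2, 3, 73, 5, 29, 7, 31, 101, 79, 11, 127, 13, 37, 61, 131, 17, 41, 19, 43, 67, 137]

/-- `23` twin primes. -/
def twins : List ℕ := [3, 5, 7, 11, 13, 17, 19, 29, 31, 41, 43, 59, 61, 71, 73, 101, 103, 107, 109, 137, 139, 149, 151]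

def T1 : Finset ℤ := (prs.map fun m => (m : ℤ)).toFinset

def T2 : Finset ℤ := (twins.map fun m => (m : ℤ)).toFinset

lemma mem_T1 (t : ℤ) : t ∈ T1 ↔ ∃ m ∈ prs, (m : ℤ) = t := by simp [T1, eq_comm]

lemma mem_T2 (t : ℤ) : t ∈ T2 ↔ ∃ m ∈ twins, (m : ℤ) = t := by simp [T2, eq_comm]

lemma T1_sub : ∀ t ∈ T1, t ∈ P := by
  intro t ht
  obtain ⟨m, hm, rfl⟩ := (mem_T1 t).1 ht
  refine ⟨m, rfl, ?_⟩
  simp only [prs, List.mem_cons, List.not_mem_nil, or_false] at hm
  rcases hm with rfl | rfl | rfl | rfl | rfl | rfl | rfl | rfl | rfl | rfl | rfl | rfl | rfl | rfl |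
    rfl | rfl | rfl | rfl | rfl | rfl | rfl | rfl | rfl <;> norm_num

lemma T2_sub : ∀ t ∈ T2, t ∈ P2 := by
  intro t ht
  obtain ⟨m, hm, rfl⟩ := (mem_T2 t).1 ht
  refine ⟨m, rfl, ?_⟩
  simp only [twins, List.mem_cons, List.not_mem_nil, or_false] at hm
  rcases hm with rfl | rfl | rfl | rfl | rfl | rfl | rfl | rfl | rfl | rfl | rfl | rfl | rfl | rfl |
    rfl | rfl | rfl | rfl | rfl | rfl | rfl | rfl | rfl <;> norm_num

lemma T1_card : 22 < T1.card := by decide +kernel

lemma T2_card : 22 < T2.card := by decide +kernel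

lemma T1_inj : ∀ s ∈ T1, ∀ t ∈ T1, ((23 : ℕ) : ℤ) ∣ s - t → s = t := by decide +kernel

lemma T1_bd : ∀ t ∈ T1, 0 ≤ t ∧ t < ((3000 : ℕ) : ℤ) := by decide +kernel

lemma T2_bd : ∀ t ∈ T2, 0 ≤ t ∧ t < ((3000 : ℕ) : ℤ) := by decide +kernel

lemma not_dvd_P (f : ℕ) (hf : IsFac P 22 f) : ¬ 23 ∣ f := by
  obtain ⟨-, hf⟩ := hf
  obtain ⟨a, ha, he⟩ := hf 23 (by norm_num)
  have h1 := not_dvd_of_inj P T1 T1_sub 23 22 (by norm_num) T1_card T1_inj a ha
  rw [emultiplicity_eq_zero.2 h1] at he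
  intro hd
  exact (emultiplicity_eq_zero.1 he) (Int.natCast_dvd_natCast.2 hd)

/-- The factorials `22!_{P2}` and `22!_P` exist; the first is divisible by `23` and the second is
not. So the asserted formula for the ratio `n!_{P2} / n!_P` is false (it would give the ratio `4`
for `n = 22`). -/
theorem result :
    (∃ f2 f : ℕ, IsFac P2 22 f2 ∧ IsFac P 22 f) ∧
    (∀ f2 f : ℕ, IsFac P2 22 f2 → IsFac P 22 f → 23 ∣ f2 ∧ ¬ 23 ∣ f) ∧
    ¬ ∀ n : ℕ, 1 ≤ n → ∀ f2 f : ℕ, IsFac P2 n f2 → IsFac P n f →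
      (f2 : ℚ) / f = 2 * 2 ^ padicValNat 2 n := by
  have hex : ∃ f2 f : ℕ, IsFac P2 22 f2 ∧ IsFac P 22 f := by
    obtain ⟨f2, h2⟩ := exists_fac P2 T2 T2_sub 22 3000 T2_card T2_bd
    obtain ⟨f, h1⟩ := exists_fac P T1 T1_sub 22 3000 T1_card T1_bd
    exact ⟨f2, f, h2, h1⟩
  refine ⟨hex, fun f2 f h2 h1 => ⟨dvd_P2 f2 h2, not_dvd_P f h1⟩, fun h => ?_⟩
  obtain ⟨f2, f, h2, h1⟩ := hex
  have h5 := h 22 (by norm_num) f2 f h2 h1
  have h6 : padicValNat 2 22 = 1 := by
    have : (22 : ℕ) = 2 ^ 1 * 11 := by norm_num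
    rw [this, padicValNat.mul (by norm_num) (by norm_num), padicValNat.prime_pow,
      padicValNat.eq_zero_of_not_dvd (by norm_num)]
  rw [h6, pow_one, div_eq_iff (by exact_mod_cast h1.1)] at h5
  have h7 : f2 = 4 * f := by
    have : (f2 : ℚ) = ((4 * f : ℕ) : ℚ) := by rw [h5]; push_cast; ring
    exact_mod_cast this
  have h8 := dvd_P2 f2 h2
  rw [h7, Nat.Prime.dvd_mul (by norm_num)] at h8
  rcases h8 with h8 | h8
  · norm_num at h8
  · exact not_dvd_P f h1 h8

end Pool.Agent.Results.MP_e482b1_nt.FailsAt22
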